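import Pool.Agent.X24.RZ.Many

/-!
# Disjoint postman joins in graphs with a bounded number of vertices of odd degree

A finite graph with vertex set `V` and edge set `E` (parallel edges and loops are allowed) is given by
the maps `src, dst : E → V`.

* `cut src dst X`: the edges with exactly one end in `X`.
* `deg src dst C v`: the number of ends at `v` of the edges of `C` (loops count twice).
* `IsPostmanJoin src dst J`: every vertex is incident with an even number of edges outside of `J`.
* `SplitsInto src dst k`: the edge set is a disjoint union of `k` postman joins.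

Proof.  All vertices of even degree are split off and the odd vertices get degree `r = k + 2 ^ N`
(`Pool.Agent.H185F`, after Zhang).  As long as `r ≥ 2 ^ N`, an `r`-graph on at most `N` vertices has a
perfect matching whose removal leaves an `(r - 1)`-graph: by Edmonds' theorem there is a perfect matching
`M` for which the sum of `(|M ∩ δ(S)| - 1) / (|δ(S)| - r + 2)` over all odd sets `S` is less than one.
-/

set_option autoImplicit false

namespace Pool.Agent.Results.MP_3b820a_co.AdditiveBound

open Finset

/-- the edges with exactly one end in `X` -/
def cut {V E : Type} [DecidableEq V] [Fintype E] (src dst : E → V) (X : Finset V) : Finset E :=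
  univ.filter (fun e => ¬ (src e ∈ X ↔ dst e ∈ X))

/-- the number of ends at `v` of the edges of `C` (a loop at `v` counts twice) -/
def deg {V E : Type} [DecidableEq V] (src dst : E → V) (C : Finset E) (v : V) : ℕ :=
  (C.filter (fun e => src e = v)).card + (C.filter (fun e => dst e = v)).card

/-- every vertex is incident with an even number of edges outside of `J` -/
def IsPostmanJoin {V E : Type} [DecidableEq V] [Fintype E] [DecidableEq E] (src dst : E → V)
    (J : Finset E) : Prop :=
  ∀ v, Even (deg src dst Jᶜ v)

/-- the edge set is the union of `k` pairwise disjoint (possibly empty) postman joins -/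
def SplitsInto {V E : Type} [DecidableEq V] [Fintype E] [DecidableEq E] (src dst : E → V)
    (k : ℕ) : Prop :=
  ∃ J : Fin k → Finset E, (∀ e, ∃! i, e ∈ J i) ∧ ∀ i, IsPostmanJoin src dst (J i)

section
variable {V E : Type} [Fintype V] [DecidableEq V] [Fintype E] [DecidableEq E]
open Pool.Agent.X24.RZ Pool.Agent.H185F Pool.Agent.H239R2.Cover

theorem deg_cast (src dst : E → V) (P : E → Prop) [DecidablePred P] (v : V) :
    ((deg src dst (univ.filter P) v : ℕ) : ZMod 2) =
      ∑ g, (if P g then (1 : ZMod 2) else 0) * hh src dst g v := by
  unfold deg hh
  push_cast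
  rw [filter_filter, filter_filter, card_filter, card_filter]
  push_cast
  rw [← sum_add_distrib]
  refine sum_congr rfl fun g _ => ?_
  by_cases h1 : P g <;> by_cases h2 : src g = v <;> by_cases h3 : dst g = v <;> simp [h1, h2, h3]

theorem deg_odd (src dst : E → V) (v : V) :
    Odd (deg src dst univ v) ↔ Odd (ecut src dst {v}).card := by
  have h1 : ((deg src dst univ v : ℕ) : ZMod 2) = (((ecut src dst {v}).card : ℕ) : ZMod 2) := by
    have h2 := deg_cast src dst (fun _ => True) v
    rw [filter_true_of_mem (fun _ _ => trivial)] at h2
    rw [h2]
    simp only [if_true]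
    rw [sum_hh (fun _ => 1), sum_const, nsmul_eq_mul, mul_one]
  rw [← ZMod.natCast_eq_one_iff_odd, ← ZMod.natCast_eq_one_iff_odd, h1]

theorem splits_of_pack {src dst : E → V} {k : ℕ} (h : Pack k src dst) : SplitsInto src dst k := by
  obtain ⟨c, hc⟩ := h
  refine ⟨fun i => univ.filter fun e => c e = i, fun e => ⟨c e, mem_filter.2 ⟨mem_univ _, rfl⟩,
    fun i hi => (mem_filter.1 hi).2.symm⟩, fun i v => ?_⟩
  have e1 : (univ.filter fun e => c e = i)ᶜ = univ.filter fun e => ¬ c e = i := by
    ext e
    simp
  rw [e1, ← ZMod.natCast_eq_zero_iff_even, deg_cast]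
  have h1 := hc v i
  have h2 : ∑ g, (if ¬ c g = i then (1 : ZMod 2) else 0) * hh src dst g v =
      ∑ g, 1 * hh src dst g v - ∑ g, (if c g = i then (1 : ZMod 2) else 0) * hh src dst g v := by
    rw [← sum_sub_distrib]
    refine sum_congr rfl fun g _ => ?_
    by_cases h3 : c g = i <;> simp [h3]
  rw [h2, h1, sub_self]

end

/-- Let `G` be a finite graph (loops and parallel edges allowed) with at most `N ≥ 1` vertices of odd
degree, let `k` be odd, and let every cut with an odd number of edges have at least `k + 2 ^ N` edges.
Then the edge set is a union of `k` pairwise disjoint postman joins. -/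
theorem result (V E : Type) [Fintype V] [DecidableEq V] [Fintype E] [DecidableEq E]
    (src dst : E → V) (k N : ℕ) (hk : Odd k) (hN : 1 ≤ N)
    (hfew : (univ.filter fun v => Odd (deg src dst univ v)).card ≤ N)
    (hcut : ∀ X : Finset V, Odd (cut src dst X).card → k + 2 ^ N ≤ (cut src dst X).card) :
    SplitsInto src dst k := by
  have e : (univ.filter fun v => Odd (deg src dst univ v)) =
      univ.filter fun v => Odd (Pool.Agent.H239R2.Cover.ecut src dst {v}).card := by
    ext v
    rw [mem_filter, mem_filter, deg_odd]
  rw [e] at hfew
  exact splits_of_pack (Pool.Agent.X24.RZ.pack_many hk hN src dst hcut hfew)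

end Pool.Agent.Results.MP_3b820a_co.AdditiveBound
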