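import Pool.Agent.X24.RZ.Part

/-!
# Rizzi's conjecture for graphs with at most eleven vertices of odd degree

A finite graph with vertex set `V` and edge set `E` (parallel edges and loops are allowed) is given by
the maps `src, dst : E → V`.

* `cut src dst X`: the edges with exactly one end in `X`.
* `deg src dst C v`: the number of ends at `v` of the edges of `C` (loops count twice).
* `IsPostmanJoin src dst J`: every vertex is incident with an even number of edges outside of `J`.
* `SplitsInto src dst k`: the edge set is a disjoint union of `k` postman joins.

Proof.  Every vertex `v` is replaced by two vertices `v, v'`: all edges are attached to `v'`, and if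
the degree of `v` is odd then `v` and `v'` are joined by `r` parallel edges.  Then the vertices `v'` have
even degree and are split off completely without creating odd cuts with less than `r` edges
(`exists_admissible` of the starting library `Pool.Agent.H185F`).  What remains is an `r`-graph on the
odd vertices.  If it has at most eight vertices it is a union of `r` perfect matchings (starting
library `Pool.Agent.H76R2`).  An `r`-graph on ten vertices has a nontrivial tight cut and is then a
union of `r` perfect matchings, or it has a perfect matching whose removal leaves an `(r - 1)`-graph,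
or it is the Petersen graph; so it has `r - 2` disjoint perfect matchings.
-/

set_option autoImplicit false

namespace Pool.Agent.Results.MP_3b820a_co.TenOddVertices

open Finset

/-- the edges with exactly one end in `X` -/
def cut {V E : Type} [DecidableEq V] [Fintype E] (src dst : E → V) (X : Finset V) : Finset E :=
  univ.filter (fun e => ¬ (src e ∈ X ↔ dst e ∈ X))

/-- the number of ends at `v` of the edges of `C` (a loop at `v` counts twice) -/
def deg {V E : Type} [DecidableEq V] (src dst : E → V) (C : Finset E) (v : V) : ℕ :=
  (C.filter (fun e => src e = v)).card + (C.filter (fun e => dst e = v)).card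

/-- every vertex is incident with an even number of edges outside of `J` -/
def IsPostmanJoin {V E : Type} [DecidableEq V] [Fintype E] [DecidableEq E] (src dst : E → V)
    (J : Finset E) : Prop :=
  ∀ v, Even (deg src dst Jᶜ v)

/-- the edge set is the union of `k` pairwise disjoint (possibly empty) postman joins -/
def SplitsInto {V E : Type} [DecidableEq V] [Fintype E] [DecidableEq E] (src dst : E → V)
    (k : ℕ) : Prop :=
  ∃ J : Fin k → Finset E, (∀ e, ∃! i, e ∈ J i) ∧ ∀ i, IsPostmanJoin src dst (J i)

section
variable {V E : Type} [Fintype V] [DecidableEq V] [Fintype E] [DecidableEq E]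
open Pool.Agent.X24.RZ Pool.Agent.H185F Pool.Agent.H239R2.Cover

theorem deg_cast (src dst : E → V) (P : E → Prop) [DecidablePred P] (v : V) :
    ((deg src dst (univ.filter P) v : ℕ) : ZMod 2) =
      ∑ g, (if P g then (1 : ZMod 2) else 0) * hh src dst g v := by
  unfold deg hh
  push_cast
  rw [filter_filter, filter_filter, card_filter, card_filter]
  push_cast
  rw [← sum_add_distrib]
  refine sum_congr rfl fun g _ => ?_
  by_cases h1 : P g <;> by_cases h2 : src g = v <;> by_cases h3 : dst g = v <;> simp [h1, h2, h3]

theorem deg_odd (src dst : E → V) (v : V) :
    Odd (deg src dst univ v) ↔ Odd (ecut src dst {v}).card := by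
  have h1 : ((deg src dst univ v : ℕ) : ZMod 2) = (((ecut src dst {v}).card : ℕ) : ZMod 2) := by
    have h2 := deg_cast src dst (fun _ => True) v
    rw [filter_true_of_mem (fun _ _ => trivial)] at h2
    rw [h2]
    simp only [if_true]
    rw [sum_hh (fun _ => 1), sum_const, nsmul_eq_mul, mul_one]
  rw [← ZMod.natCast_eq_one_iff_odd, ← ZMod.natCast_eq_one_iff_odd, h1]

theorem splits_of_pack {src dst : E → V} {k : ℕ} (h : Pack k src dst) : SplitsInto src dst k := by
  obtain ⟨c, hc⟩ := h
  refine ⟨fun i => univ.filter fun e => c e = i, fun e => ⟨c e, mem_filter.2 ⟨mem_univ _, rfl⟩,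
    fun i hi => (mem_filter.1 hi).2.symm⟩, fun i v => ?_⟩
  have e1 : (univ.filter fun e => c e = i)ᶜ = univ.filter fun e => ¬ c e = i := by
    ext e
    simp
  rw [e1, ← ZMod.natCast_eq_zero_iff_even, deg_cast]
  have h1 := hc v i
  have h2 : ∑ g, (if ¬ c g = i then (1 : ZMod 2) else 0) * hh src dst g v =
      ∑ g, 1 * hh src dst g v - ∑ g, (if c g = i then (1 : ZMod 2) else 0) * hh src dst g v := by
    rw [← sum_sub_distrib]
    refine sum_congr rfl fun g _ => ?_
    by_cases h3 : c g = i <;> simp [h3]
  rw [h2, h1, sub_self]

end

/-- Let `G` be a finite graph (loops and parallel edges allowed).  (1) If `G` has at most nine vertices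
of odd degree, `k` is odd and every cut with an odd number of edges has at least `k` edges, then the
edge set is a union of `k` pairwise disjoint postman joins.  (2) If `G` has at most eleven vertices of
odd degree and every cut with an odd number of edges has more than `2a + 1` edges, then the edge set is
a union of `2a + 1` pairwise disjoint postman joins (Rizzi's conjecture). -/
theorem result (V E : Type) [Fintype V] [DecidableEq V] [Fintype E] [DecidableEq E]
    (src dst : E → V) :
    ((univ.filter fun v => Odd (deg src dst univ v)).card ≤ 9 → ∀ k : ℕ, Odd k →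
      (∀ X : Finset V, Odd (cut src dst X).card → k ≤ (cut src dst X).card) →
      SplitsInto src dst k) ∧
    ((univ.filter fun v => Odd (deg src dst univ v)).card ≤ 11 → ∀ a : ℕ,
      (∀ X : Finset V, Odd (cut src dst X).card → 2 * a + 1 < (cut src dst X).card) →
      SplitsInto src dst (2 * a + 1)) := by
  have e : (univ.filter fun v => Odd (deg src dst univ v)) =
      univ.filter fun v => Odd (Pool.Agent.H239R2.Cover.ecut src dst {v}).card := by
    ext v
    rw [mem_filter, mem_filter, deg_odd]
  have hev : Even (univ.filter fun v =>
      Odd (Pool.Agent.H239R2.Cover.ecut src dst {v}).card).card := by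
    have h1 := Pool.Agent.X24.RZ.parity_sum src dst univ
    have h2 : Pool.Agent.H239R2.Cover.ecut src dst univ = ∅ := by
      ext g
      simp [Pool.Agent.H239R2.Cover.mem_ecut]
    rw [h2, card_empty] at h1
    have h3 : Even (∑ x, (Pool.Agent.H239R2.Cover.ecut src dst {x}).card) := by
      rw [Nat.even_iff]
      omega
    exact (Finset.even_sum_iff_even_card_odd _).1 h3
  rw [e]
  refine ⟨fun h k hk hc => ?_, fun h a hc => ?_⟩
  · refine splits_of_pack (Pool.Agent.X24.RZ.pack8 hk src dst hc ?_)
    obtain ⟨m, hm⟩ := hev
    omega
  · refine splits_of_pack ?_
    have h3 : Odd (2 * a + 3) := ⟨a + 1, by ring⟩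
    have h4 : (univ.filter fun v =>
        Odd (Pool.Agent.H239R2.Cover.ecut src dst {v}).card).card ≤ 10 := by
      obtain ⟨m, hm⟩ := hev
      omega
    have h5 : Pool.Agent.H185F.OddConn (2 * a + 3) src dst := by
      intro X hX
      have h6 := hc X hX
      change 2 * a + 1 < (Pool.Agent.H239R2.Cover.ecut src dst X).card at h6
      rw [Nat.odd_iff] at hX
      omega
    exact Pool.Agent.X24.RZ.pack10 a src dst h5 h4

end Pool.Agent.Results.MP_3b820a_co.TenOddVertices
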